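import Pool.Agent.MP_5d9b3c_ag.P3X.CovS
import Pool.Agent.MP_5d9b3c_ag.P3X.Face
import Pool.Agent.MP_5d9b3c_ag.O3D.SpecX
import Pool.Agent.MP_ee8c61_ag.N3BK.RSurfA

/-! Faces and double faces are separated and integral. -/

namespace Pool.Agent.MP_ee8c61_ag.N3.BK.P3D

open Pool.Agent.MP_5d9b3c_ag Pool.Agent.MP_5d9b3c_ag.P3D

export Pool.Agent.MP_5d9b3c_ag.P3D (AK CBox CFace Sp0 sDOMC)

set_option linter.unusedSectionVars false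

variable [Base]

open M3 M3RESID M3BK P3 P3K P3T Set
open Pool.Agent.MP_96693b_ag.RS (Loc)

variable {p : ℕ} [Fact p.Prime] [Algebra ℚ_[p] ℂ] [Rgn p] [Algebra.IsAlgebraic ℚ_[p] ℂ]

section

variable {L k : Type} [Field L] [Algebra ℂ L] [Field k] [Algebra ℂ k] {n : ℕ}
  {A : GA ℚ_[p] L} {B : GA ℚ_[p] k} {P : Pl L k} {h : A.Cpt B P}

end

namespace Fam

open Pool.Agent.MP_5d9b3c_ag.P3D.Fam

variable {f₀ : Po 3} {M : Mod 3} {f : (AK p).fix} {𝓑 : Fam M f} {o : M.J}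
  {k κ : Type} [Field k] [Algebra ℂ k] [Field κ] [Algebra ℂ κ] {B : GA ℚ_[p] k} {P : Pl (KK 3) k}
  {h : (AK p).Cpt B P} {E : GA ℚ_[p] κ} {R : Pl k κ}

theorem mem_pts (𝓑 : Fam M f) (b : 𝓑.ι) {t : Fin 3 → ℚ_[p]} (ht : t ∈ Bl p 3) :
    (𝓑.c b).Q t ∈ M.pts := (𝓑.pt b).imp fun _ h => h t ht

/-- A valuation ring has its centre in one box only. -/
theorem sepV (Bs : M3E.Bas f₀ M) {b b' : 𝓑.ι} {t u : Fin 3 → ℚ_[p]} (ht : t ∈ Bl p 3)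
    (hu : u ∈ Bl p 3) {V : Vl 3} (h1 : Dm ((𝓑.c b).Q t) V) (h2 : Le ((𝓑.c b').Q u) V) : b = b' :=
  𝓑.dis b b' t ht u hu
    (CBox.Φ_eq ht hu (RSurf.sep Bs (𝓑.mem_pts b ht) (𝓑.mem_pts b' hu) h1 h2))

theorem Fc.sepV (s : 𝓑.Fc o h) (Bs : M3E.Bas f₀ M) {x y : 𝓑.F1 o} {t u : Fin 2 → ℚ_[p]}
    (ht : t ∈ Bl p 2) (hu : u ∈ Bl p 2) {V : ValuationSubring k} (h1 : Dm ((s.g x).Q t) V)
    (h2 : Le ((s.g y).Q u) V) : x = y := by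
  have e := Fam.sepV Bs (ins_Bl _ ht) (ins_Bl _ hu) (RSurf.dm_lift ((s.fc x).pr ht) h1)
    (RSurf.le_lift ((s.fc y).pr hu) h2)
  obtain ⟨⟨b, i⟩, hx⟩ := x
  obtain ⟨⟨b', i'⟩, hy⟩ := y
  obtain rfl : b = b' := e
  obtain rfl : i = i' := 𝓑.inj b i i' o hx hy
  rfl

theorem sp0 (𝓑 : Fam M f) (Bs : M3E.Bas f₀ M) : Sp0 fun b => (𝓑.c b).b := fun x y t ht u hu e => by
  obtain ⟨V, hV⟩ := RSurf.exists_dm ((𝓑.c y).Q u)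
  exact (Fam.sepV Bs hu ht hV fun g hg => hV.1 g (sDOMC p _ _ _ _ _ t ht u hu e hg)).symm

theorem Fc.sp1 (s : 𝓑.Fc o h) (Bs : M3E.Bas f₀ M) : Sp0 fun x => (s.g x).b :=
  fun x y t ht u hu e => by
  obtain ⟨V, hV⟩ := RSurf.exists_dm ((s.g y).Q u)
  exact (s.sepV Bs hu ht hV fun g hg => hV.1 g (sDOMC p _ _ _ _ _ t ht u hu e hg)).symm

theorem Fc.itg1 (s : 𝓑.Fc o h) : Itg (fun x => (s.g x).b) (x1 h) := by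
  rintro x t ht _ ⟨l, rfl⟩
  exact (s.fc x).itg ht (𝓑.itg _ _ (ins_Bl _ ht) _ ⟨l, rfl⟩)

variable (s : 𝓑.Fc o h) {h2 : B.Cpt E R} {c : s.F2 R.o → CBox E 1}
  (hc : ∀ x, CFace (s.g x.1.1) h2 x.1.2 (c x))

include hc

theorem Fc.sepV2 (Bs : M3E.Bas f₀ M) {x y : s.F2 R.o} {t u : Fin 1 → ℚ_[p]}
    (ht : t ∈ Bl p 1) (hu : u ∈ Bl p 1) {V : ValuationSubring κ} (h1 : Dm ((c x).Q t) V)
    (h3 : Le ((c y).Q u) V) : x = y := by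
  have e := s.sepV Bs (ins_Bl _ ht) (ins_Bl _ hu) (RSurf.dm_lift ((hc x).pr ht) h1)
    (RSurf.le_lift ((hc y).pr hu) h3)
  obtain ⟨⟨b, i⟩, hx⟩ := x
  obtain ⟨⟨b', i'⟩, hy⟩ := y
  obtain rfl : b = b' := e
  obtain rfl : i = i' := hx.2.uniq hy.2
  rfl

theorem Fc.sp2 (Bs : M3E.Bas f₀ M) : Sp0 fun x => (c x).b := fun x y t ht u hu e => by
  obtain ⟨V, hV⟩ := RSurf.exists_dm ((c y).Q u)
  exact (s.sepV2 hc Bs hu ht hV fun g hg => hV.1 g (sDOMC p _ _ _ _ _ t ht u hu e hg)).symm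

theorem Fc.itg2 : Itg (fun x => (c x).b) (x2 h h2) := by
  rintro x t ht _ ⟨l, rfl⟩
  exact (hc x).itg ht (s.itg1 _ _ (ins_Bl _ ht) _ ⟨l, rfl⟩)

end Fam

end Pool.Agent.MP_ee8c61_ag.N3.BK.P3D
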