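import Pool.Agent.MP_5d9b3c_ag.O3X.CovC
import Pool.Agent.MP_5d9b3c_ag.O3X.CovS
import Pool.Agent.MP_ee8c61_ag.N3E.Asm

/-! The boxes, their faces and their double faces are complete families. -/

namespace Pool.Agent.MP_ee8c61_ag.N3.BK.P3D

open Pool.Agent.MP_5d9b3c_ag Pool.Agent.MP_5d9b3c_ag.P3D

set_option linter.unusedSectionVars false

variable [Base]

variable (p : ℕ) [Fact p.Prime] [Algebra ℚ_[p] ℂ] [Rgn p] [Algebra.IsAlgebraic ℚ_[p] ℂ]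

theorem sCOV0 (E : M3E.EOut) : SCOV0 p := fun f₀ _ M 𝓑 hM hS =>
  ⟨𝓑.dis, 𝓑.itg, cov0 hM (E.bas 3 f₀ M hM) hS 𝓑⟩

theorem sCOV1 (E : M3E.EOut) : SCOV1 p := fun f₀ _ M _ _ _ _ _ _ _ _ s hM hS =>
  have B := E.bas 3 f₀ M hM
  ⟨s.sp1 B, (s.sp1 B).dis, s.itg1, cov1 hM B hS s⟩

theorem sCOV2 (E : M3E.EOut) : SCOV2 p := fun f₀ _ M _ _ _ _ _ _ _ _ _ _ _ s _ _ h2 c hM hS hc =>
  have B := E.bas 3 f₀ M hM
  ⟨s.sp2 hc B, s.itg2 hc, cov2 hM B hS s h2 c hc⟩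

end Pool.Agent.MP_ee8c61_ag.N3.BK.P3D
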