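import Pool.Agent.MP_5d9b3c_ag.P3X.FamD
import Pool.Agent.MP_5d9b3c_ag.O3D.SpecX
import Pool.Agent.MP_5d9b3c_ag.O3.Defs

/-!
Adapted boxes, small balls in a box, and the statements that build a family.
-/

namespace Pool.Agent.MP_ee8c61_ag.N3.BK.P3D

open Pool.Agent.MP_5d9b3c_ag Pool.Agent.MP_5d9b3c_ag.P3D

set_option linter.unusedSectionVars false

variable [Base]

open M3 M3RESID M3BK P3 P3K P3T Set
open Pool.Agent.MP_96693b_ag.RS (Loc)

noncomputable section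

variable {p : ℕ} [Fact p.Prime] [Algebra ℚ_[p] ℂ] [Rgn p] [Algebra.IsAlgebraic ℚ_[p] ℂ]

section

variable {L : Type} [Field L] [Algebra ℂ L] {n : ℕ} {A : GA ℚ_[p] L}

end

variable (p) in
/-- The coordinate functions have integral values at `Q`. -/
def IntP (Q : Loc (KK 3)) : Prop :=
  ∀ l, ∃ a : ℚ_[p], ‖a‖ ≤ 1 ∧ Q.ev (tK p l) = algebraMap ℚ_[p] ℂ a

/-- The box `c` with the labels `lab` is adapted to the model `M` of `f`. -/
structure Ad (M : Mod 3) (f : (AK p).fix) (c : CBox (AK p) 3) (lab : Fin 3 → Option M.J) :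
    Prop where
  inj : ∀ i i' j, lab i = some j → lab i' = some j → i = i'
  pt : ∃ a, ∀ t ∈ Bl p 3, MP_96693b_ag.RS.LocOf (M.S.A a) (c.Q t)
  inv : ∀ i j, lab i = some j → (AK p).InvO (M.v j)
  dat : ∀ i j, lab i = some j → c.On (M.v j) i
  on : ∀ t ∈ Bl p 3, ∀ j, M.On (c.Q t) j ↔ ∃ i, lab i = some j ∧ t i = 0
  mf : ∃ α, c.b.Mono f α fun i => (lab i).elim 0 M.aa
  mj : ∃ α, c.b.Mono (c.b.jac (xK p)) α fun i => (lab i).elim 0 M.kk

/-- The coordinate functions have integral values on the box. -/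
def Ig (c : CBox (AK p) 3) : Prop :=
  ∀ t ∈ Bl p 3, ∀ l, tK p l ∈ (c.b.Φ t).O ∧ ‖(c.b.Φ t).ev (tK p l)‖ ≤ 1

/-- Every integral fixed point is the centre of an adapted box. -/
def Bxs (M : Mod 3) (f : (AK p).fix) : Prop :=
  ∀ Q ∈ M.pts, (AK p).FixL Q → IntP p Q → ∃ c lab, Ad M f c lab ∧ c.Q 0 = Q

variable (p)

/-- The box at one point. -/
def XBOX : Prop := ∀ (f₀ : Po 3) (W : Set (Subalgebra ℂ (KK 3))) (M : Mod 3) (f : (AK p).fix),
  StM ℚ_[p] f₀ W M → FxP ℚ_[p] f₀ → (f : KK 3) = ip 3 f₀ → Bxs M f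

/-- The curve of a double face. -/
def XCRV : Prop := ∀ (f₀ : Po 3) (M : Mod 3) (f : (AK p).fix) (c : CBox (AK p) 3)
  (lab : Fin 3 → Option M.J), M.OK f₀ → Ad M f c lab → c.Ev fun c' => CrvB c' lab

/-- A family of small boxes. -/
def XFAM : Prop := ∀ (f₀ : Po 3) (M : Mod 3) (f : (AK p).fix)
  (E : CBox (AK p) 3 → (Fin 3 → Option M.J) → Prop), M.OK f₀ → Stp p M → Bxs M f →
  (∀ c lab, Ad M f c lab → Ig c → c.Ev fun c' => CrvB c' lab ∧ E c' lab) →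
  ∃ 𝓑 : Fam M f, ∀ b, E (𝓑.c b) (𝓑.lab b)

end

end Pool.Agent.MP_ee8c61_ag.N3.BK.P3D
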