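import Pool.Agent.MP_5d9b3c_ag.P3X.SubC
import Pool.Agent.MP_5d9b3c_ag.O3X.FamD
import Pool.Agent.MP_5d9b3c_ag.P3X.Face
import Pool.Agent.MP_5d9b3c_ag.P3K.Sub

/-! Small balls in a box of fixed points. -/

namespace Pool.Agent.MP_ee8c61_ag.N3.BK.P3D

open Pool.Agent.MP_5d9b3c_ag Pool.Agent.MP_5d9b3c_ag.P3D

export Pool.Agent.MP_5d9b3c_ag.P3D (AK CBox aff_zero cut cut_some cut_zero)

set_option linter.unusedSectionVars false

variable [Base]

open M3 M3RESID M3BK P3 P3K P3T Set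
open Pool.Agent.MP_96693b_ag.RS (Loc)

noncomputable section

variable {L : Type} [Field L] [Algebra ℂ L] {n : ℕ}

variable {p : ℕ} [Fact p.Prime]

variable [Algebra ℚ_[p] ℂ] [Rgn p] {A : GA ℚ_[p] L} {a : Fin n → ℚ_[p]} {e : ℕ}

variable [Algebra.IsAlgebraic ℚ_[p] ℂ]

variable {c c' : CBox A n}

variable {M : Mod 3} {f : (AK p).fix} {d d' : CBox (AK p) 3} {lab : Fin 3 → Option M.J}
  {s : Fin 3 → ℚ_[p]}

/-- Small balls in an adapted box are adapted. -/
theorem Ad.sub (H : Ad M f d lab) (h : d.IsSub s e d') (hn : Nm s e) : Ad M f d' (cut s lab) := by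
  classical
  have k : ∀ w : M.J → ℤ, (fun l => if s l = 0 then (lab l).elim 0 w else 0) =
      fun l => (cut s lab l).elim 0 w := fun w => funext fun l => by
    by_cases q : s l = 0 <;> simp [cut, q]
  refine ⟨fun i i' j q q' => H.inj i i' j (cut_some.1 q).2 (cut_some.1 q').2,
    H.pt.imp fun _ q t ht => h.Q t ht ▸ q _ (aff_bl h.sub.mem ht),
    fun i j q => H.inv i j (cut_some.1 q).2,
    fun i j q => h.on (cut_some.1 q).1 (H.dat i j (cut_some.1 q).2), fun t ht j => ?_, ?_, ?_⟩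
  · rw [h.Q t ht, H.on _ (aff_bl h.sub.mem ht)]
    exact exists_congr fun i => by rw [aff_zero hn ht, cut_some, and_left_comm, and_assoc]
  · obtain ⟨α, q⟩ := H.mf
    exact ⟨_, (h.sub.mono hn q).congr rfl (k _)⟩
  · obtain ⟨α, q⟩ := H.mj
    have := ((d'.b.un_p.mono.pow e).pow 3).mul (h.sub.mono hn q)
    rw [← h.sub.jac] at this
    exact ⟨_, this.congr rfl (by rw [smul_zero, smul_zero, zero_add]; exact k _)⟩

theorem Ad.sub0 (H : Ad M f d lab) (h : d.IsSub 0 e d') : Ad M f d' lab :=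
  cut_zero (p := p) lab ▸ H.sub h fun _ => Or.inl rfl

theorem Ig.sub (H : Ig d) (h : d.IsSub s e d') : Ig d' := fun t ht =>
  h.sub.Φ t ht ▸ H _ (aff_bl h.sub.mem ht)

end

end Pool.Agent.MP_ee8c61_ag.N3.BK.P3D
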