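import Pool.Agent.MP_5d9b3c_ag.P3X.Fam
import Pool.Agent.MP_5d9b3c_ag.O3X.SubC
import Pool.Agent.MP_5d9b3c_ag.O3X.CovS
import Pool.Agent.MP_5d9b3c_ag.P3K.Asm
import Pool.Agent.MP_ee8c61_ag.N3BK.RCht

/-! The integral fixed points of a stable model form a finite disjoint union of small boxes. -/

namespace Pool.Agent.MP_ee8c61_ag.N3.BK.P3D

open Pool.Agent.MP_5d9b3c_ag Pool.Agent.MP_5d9b3c_ag.P3D

export Pool.Agent.MP_5d9b3c_ag.P3D (AK CBox CrvB Vd exists_vd isSub_rest sDOMC)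

set_option linter.unusedSectionVars false

variable [Base]

open M3 M3RESID M3BK P3 P3K P3T Set
open Pool.Agent.MP_96693b_ag.RS (Loc)
open Pool.Agent.MP_96693b_ag

noncomputable section

variable {p : ℕ} [Fact p.Prime] [Algebra ℚ_[p] ℂ] [Rgn p]

variable [Algebra.IsAlgebraic ℚ_[p] ℂ] {f₀ : Po 3} {M : Mod 3} {f : (AK p).fix}

theorem Ad.pts {c : CBox (AK p) 3} {lab : Fin 3 → Option M.J} (H : Ad M f c lab)
    {t : Fin 3 → ℚ_[p]} (ht : t ∈ Bl p 3) : c.Q t ∈ M.pts := H.pt.imp fun _ h => h t ht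

/-- A valuation of the fixed field has its centre at a fixed point. -/
theorem exists_cen (hM : M.OK f₀) (Bs : M3E.Bas f₀ M) (hS : Stp p M) (w : Pt p (AK p).fix)
    (hw : ∀ g, g ∈ w.O ∨ g⁻¹ ∈ w.O) (hi : ∀ c ∈ range (tK p), c ∈ w.O ∧ ‖w.ev c‖ ≤ 1) :
    ∃ Q ∈ M.pts, (AK p).FixL Q ∧ IntP p Q ∧ ∀ g : (AK p).fix, (g : KK 3) ∈ Q.O → g ∈ w.O := by
  obtain ⟨V, h⟩ := exists_vd w
  obtain ⟨b, hb⟩ := hM.cov V (ov_tK.2 ⟨h.cst, fun l => h.le _ (hi _ ⟨l, rfl⟩).1⟩)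
  obtain ⟨Q, h1, h2⟩ := RSurf.exists_le (Cht.chart_fg hM b) hb
  refine ⟨Q, ⟨b, h1⟩, fun σ => (RSurf.sep Bs ⟨b, h1⟩ (hS σ Q ⟨b, h1⟩) (h.dm_of hw h2)
    fun g hg => ?_).symm, fun l => ⟨_, (hi _ ⟨l, rfl⟩).2,
      h.ev_of h2 (h1.le (tK_mem hM b l)) (h.sub_ev (hi _ ⟨l, rfl⟩).1)⟩,
    fun g hg => h.mem hw (h2 _ hg)⟩
  exact ((AK p).si σ).e_symm_e g ▸ h.stb hw σ (h2 _ hg)

theorem Bxs.ig (H : Bxs M f) (hM : M.OK f₀) {Q : Loc (KK 3)} (hQ : Q ∈ M.pts)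
    (h1 : (AK p).FixL Q) (h2 : IntP p Q) : ∃ c lab, Ad M f c lab ∧ Ig c ∧ c.Q 0 = Q := by
  obtain ⟨c, lab, h3, rfl⟩ := H Q hQ h1 h2
  obtain ⟨e, c', h4, h5⟩ := (CBox.ev_box (c := c) (Box.ev_pt zero_bl
    (q := fun x => ∀ l, tK p l ∈ x.O ∧ ‖x.ev (tK p l)‖ ≤ 1) (Filter.eventually_all.2 fun l => by
      obtain ⟨a, a1, a2⟩ := h2 l
      refine (Pt.nhds_mem ((c.O 0 zero_bl _).2 (hQ.choose_spec.le (tK_mem hM _ l)))
        ((IsUltrametricDist.isOpen_closedBall 0 one_ne_zero).mem_nhds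
          (mem_closedBall_zero_iff.2 ?_))).mono
        fun _ k => ⟨k.1, mem_closedBall_zero_iff.1 k.2⟩
      rwa [(algebraMap ℚ_[p] ℂ).injective ((c.ev 0 zero_bl _).trans a2)]))).ex
  exact ⟨c', lab, h3.sub0 h4, h5, h4.zero⟩

variable (p)

theorem xFAM (hB : M3E.SBas) : XFAM p := by
  intro f₀ M f E hM hS hX hE
  have Bs := hB 3 f₀ M hM
  let K : Set (Pt p (AK p).fix) :=
    {x | ∃ c lab, Ad M f c lab ∧ Ig c ∧ ∃ t ∈ Bl p 3, c.b.Φ t = x}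
  have sp : SepS K := by
    rintro _ ⟨c, lab, h1, -, t, ht, rfl⟩ _ ⟨c', lab', k1, -, s, hs, rfl⟩ w a a'
    obtain ⟨V, h⟩ := exists_vd w
    exact CBox.Φ_eq ht hs (RSurf.sep Bs (h1.pts ht) (k1.pts hs) (h.dom c ht a) (h.dom c' hs a').1)
  have cp : IsCompact K := cpt (n := 3) K (range (tK p)) sp
    (by rintro _ ⟨c, lab, -, h2, t, ht, rfl⟩ _ ⟨l, rfl⟩; exact h2 t ht l)
    (fun w hw hi => by
      obtain ⟨Q, h1, h2, h3, h4⟩ := exists_cen hM Bs hS w hw hi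
      obtain ⟨c, lab, k1, k2, rfl⟩ := hX.ig hM h1 h2 h3
      exact ⟨_, ⟨c, lab, k1, k2, 0, zero_bl, rfl⟩, fun g hg => h4 g ((c.O 0 zero_bl g).1 hg)⟩)
    fun x ⟨c, lab, h1, h2, h3⟩ => ⟨c.b, h3, fun t ht => ⟨c, lab, h1, h2, t, ht, rfl⟩⟩
  obtain ⟨ι, _, b, h1, h2, -, h4⟩ := ref K (fun b => ∃ c lab, c.b = b ∧ Ad M f c lab ∧ Ig c ∧
    CrvB c lab ∧ E c lab) cp sp fun x ⟨c, lab, h1, h2, h3⟩ =>
      ⟨c.b, h3, fun t ht => ⟨c, lab, h1, h2, t, ht, rfl⟩, fun a ha => by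
        obtain ⟨e₁, n1⟩ := nm_ev a
        obtain ⟨c₁, s1⟩ := c.exists_sub ha e₁
        have a1 := h1.sub s1 (n1 e₁ le_rfl)
        obtain ⟨e₀, k⟩ := hE c₁ _ a1 (h2.sub s1)
        refine ⟨e₁ + e₀, fun e he b' hb => ?_⟩
        obtain ⟨e', rfl⟩ := Nat.exists_eq_add_of_le (le_of_add_le_left he)
        have s2 := c₁.sub_isSub (isSub_rest s1.sub hb)
        exact ⟨_, _, rfl, a1.sub0 s2, (h2.sub s1).sub s2,
          k e' (Nat.le_of_add_le_add_left he) _ s2⟩⟩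
  choose c lab k1 k2 k3 k4 k5 using h1
  obtain rfl : b = fun i => (c i).b := funext fun i => (k1 i).symm
  refine ⟨⟨ι, inferInstance, c, lab, fun i => (k2 i).inj, fun i => (k2 i).pt, fun i => (k2 i).inv,
    fun i => (k2 i).dat, fun i => (k2 i).on, fun i => (k2 i).mf, fun i => (k2 i).mj,
    fun i j t ht s hs e => h2 i j t ht s hs _ e.le le_rfl, ?_, fun Q q1 q2 q3 => ?_, k4⟩, k5⟩
  · rintro i t ht _ ⟨l, rfl⟩
    exact k3 i t ht l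
  · obtain ⟨d, lb, a1, a2, rfl⟩ := hX.ig hM q1 q2 q3
    obtain ⟨i, t, ht, e⟩ := h4 _ ⟨d, lb, a1, a2, 0, zero_bl, rfl⟩
    exact ⟨i, t, ht, RS.Loc.ext' (le_antisymm (sDOMC p _ _ _ _ _ t ht 0 zero_bl e.le)
      (sDOMC p _ _ _ _ _ 0 zero_bl t ht e.ge))⟩

end

end Pool.Agent.MP_ee8c61_ag.N3.BK.P3D
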