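import Pool.Agent.MP_5d9b3c_ag.P3X.XCrv
import Pool.Agent.MP_5d9b3c_ag.P3X.Crv
import Pool.Agent.MP_5d9b3c_ag.P3K.Sub
import Pool.Agent.MP_5d9b3c_ag.O3X.FamD
import Pool.Agent.MP_ee8c61_ag.N3BK.RCht

/-! The double curves of small boxes. -/

namespace Pool.Agent.MP_ee8c61_ag.N3.BK.P3D

open Pool.Agent.MP_5d9b3c_ag Pool.Agent.MP_5d9b3c_ag.P3D

export Pool.Agent.MP_5d9b3c_ag.P3D (crv0_small crv_of)

set_option linter.unusedSectionVars false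

variable [Base]

open M3 M3RESID M3BK P3 P3K P3T Set Filter Topology
open Pool.Agent.MP_96693b_ag.RS (Loc LocOf)
open Pool.Agent.MP_96693b_ag

theorem xCRV (p : ℕ) [Fact p.Prime] [Algebra ℚ_[p] ℂ] [Rgn p] [Algebra.IsAlgebraic ℚ_[p] ℂ] :
    XCRV p := by
  intro f₀ M f c lab hM h
  obtain ⟨a, ha⟩ := h.pt
  refine (crv0_small c (Cht.chart_fg hM a) (ha 0 zero_Bl).le).imp
    fun _ H e he c' hc i m _ _ k _ _ B P h g hf => crv_of (A₀ := M.S.A a) (fun t ht => ?_)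
      (H e he c' hc.sub hc.Q i _) hf
  exact hc.Q t ht ▸ ha _ (aff_bl zero_Bl ht)

end Pool.Agent.MP_ee8c61_ag.N3.BK.P3D
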