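import Pool.Agent.MP_5d9b3c_ag.P3X.CovG
import Pool.Agent.MP_5d9b3c_ag.O3D.SpecX
import Pool.Agent.MP_5d9b3c_ag.P3K.Kit
import Pool.Agent.MP_ee8c61_ag.N3BK.RSurfA
import Pool.Agent.MP_ee8c61_ag.N3BK.RCht

/-! The germ of a `p`-adic point in the complex function field. -/

namespace Pool.Agent.MP_ee8c61_ag.N3.BK.P3D

open Pool.Agent.MP_5d9b3c_ag Pool.Agent.MP_5d9b3c_ag.P3D

export Pool.Agent.MP_5d9b3c_ag.P3D (AK Gr)

set_option linter.unusedSectionVars false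

variable [Base]

open M3 M3RESID M3BK P3 P3K P3T Set
open Pool.Agent.MP_96693b_ag.RS (Loc)
open Pool.Agent.MP_96693b_ag

noncomputable section

variable {p : ℕ} [Fact p.Prime] [Algebra ℚ_[p] ℂ] [Rgn p] [Algebra.IsAlgebraic ℚ_[p] ℂ]

/-- The centre of a germ on a stable model is a fixed point. -/
theorem Gr.pt {f : Po 3} {M : Mod 3} (hM : M.OK f) (hB : M3E.Bas f M) (hS : Stp p M)
    (J : Gr (AK p)) {a : M.ι} (ha : M.S.A a ≤ J.S) :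
    ∃ Q, RS.LocOf (M.S.A a) Q ∧ (AK p).FixL Q ∧ ∀ g ∈ Q.O, J.N g (Q.ev g) := by
  obtain ⟨V, hV⟩ := J.val
  obtain ⟨Q, h1, h2⟩ := RSurf.exists_le (Cht.chart_fg hM a) (W := V) fun g hg =>
    (ha hg).elim fun c e => (hV g c e).1
  have k : ∀ g ∈ M.S.A a, J.E g (Q.ev g) := fun g hg => (ha hg).elim fun c e => by
    have e' : J.E (g - algebraMap ℂ _ c) 0 := by simpa [Gr.E] using e
    have : Q.ev (g - algebraMap ℂ _ c) = 0 := by_contra fun h =>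
      (hV _ _ e').2.1 (RSurf.un_of_ev h2 h) rfl
    rw [RS.Loc.ev_sub (h1.le hg) (Q.O.algebraMap_mem _), Q.ev_alg, sub_eq_zero] at this
    exact this ▸ e
  have n : ∀ g ∈ Q.O, J.N g (Q.ev g) := fun g hg => by
    obtain ⟨u, u1, q, q1, q2, e⟩ := h1.frac g hg
    exact ⟨q, _, k q q1, q2, by rw [← Q.ev_mul _ hg _ (h1.le q1), e]; exact k u u1⟩
  refine ⟨Q, h1, fun σ => (RSurf.sep hB ⟨a, h1⟩ (hS σ Q ⟨a, h1⟩) (V := V) ⟨h2, fun g hg h0 u => ?_⟩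
    (((AK p).si σ).all.2 fun g hg => ?_)).symm, n⟩
  · obtain ⟨q, d, q1, q2, q3⟩ := n g hg
    exact (hV _ _ q3).2.1 (u.mul ((hV _ _ q1).2.2 q2)) (by rw [h0, zero_mul])
  · obtain ⟨q, d, q1, q2, q3⟩ := n g (((AK p).si σ).e_mem_sa.1 hg)
    exact ((hV _ _ (q1.conj σ)).2.2 ((map_ne_zero σ).2 q2)).mem_iff.1
      (map_mul ((AK p).ρ σ) g q ▸ (hV _ _ (q3.conj σ)).1)

end

end Pool.Agent.MP_ee8c61_ag.N3.BK.P3D
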