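import Pool.Agent.MP_5d9b3c_ag.P3X.CovC
import Pool.Agent.MP_5d9b3c_ag.O3X.CovG
import Pool.Agent.MP_5d9b3c_ag.P3X.Face
import Pool.Agent.MP_ee8c61_ag.M3BK.RCrv

/-! The boxes, their faces and their double faces cover the general integral points. -/

namespace Pool.Agent.MP_ee8c61_ag.N3.BK.P3D

open Pool.Agent.MP_5d9b3c_ag Pool.Agent.MP_5d9b3c_ag.P3D

export Pool.Agent.MP_5d9b3c_ag.P3D (AK CBox CFace Gr coe_pf f1_of gr gr_gen gr_n pf rem_bl sh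
  sh_z sh_zero up up_le)

set_option linter.unusedSectionVars false

variable [Base]

open M3 M3RESID M3BK P3 P3K P3T Set
open Pool.Agent.MP_96693b_ag.RS (Loc)
open Pool.Agent.MP_96693b_ag

variable {p : ℕ} [Fact p.Prime] [Algebra ℚ_[p] ℂ] [Rgn p] [Algebra.IsAlgebraic ℚ_[p] ℂ]

section Gen

variable {L k : Type} [Field L] [Algebra ℂ L] [Field k] [Algebra ℂ k] {n : ℕ} {A : GA ℚ_[p] L}
  {B : GA ℚ_[p] k} {P : Pl L k} {h : A.Cpt B P}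

end Gen

variable {f₀ : Po 3} {f : (AK p).fix} {M : Mod 3} (hM : M.OK f₀) (hB : M3E.Bas f₀ M) (hS : Stp p M)
  (𝓑 : Fam M f)

include hM hB hS

theorem Fam.core (J : Gr (AK p)) {a : M.ι} (ha : M.S.A a ≤ J.S)
    (hx : ∀ l c, J.N ((tK p l : KK 3)) c → ∃ r : ℚ_[p], ‖r‖ ≤ 1 ∧ c = algebraMap ℚ_[p] ℂ r) :
    ∃ b, ∃ t ∈ Bl p 3, RS.LocOf (M.S.A a) ((𝓑.c b).Q t) ∧
      ∀ g ∈ ((𝓑.c b).Q t).O, J.N g (((𝓑.c b).Q t).ev g) := by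
  obtain ⟨Q, h1, h2, h3⟩ := Gr.pt hM hB hS J ha
  obtain ⟨b, t, ht, rfl⟩ := 𝓑.all Q ⟨a, h1⟩ h2 fun l => hx l _ (h3 _ (h1.le (tK_mem hM a l)))
  exact ⟨b, t, ht, h1, h3⟩

theorem cov0 : Cov (fun b => (𝓑.c b).b) (range (tK p)) := by
  obtain ⟨a, -⟩ := hM.cov ⊤ fun _ => trivial
  obtain ⟨T, hT⟩ := Cht.chart_fg hM a
  obtain ⟨Y, h0, hY⟩ := gr_gen (AK p) T
  refine ⟨Y, h0, fun x h1 h2 => ?_⟩
  obtain ⟨b, t, ht, -, k⟩ := 𝓑.core hM hB hS (gr x) (a := a) (hT ▸ Algebra.adjoin_le (hY x h1))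
    fun l c e => ⟨_, (h2 _ ⟨l, rfl⟩).2, (gr_n (g := tK p l) e).2.symm⟩
  exact ⟨b, t, ht, CBox.le_of ht k⟩

variable {𝓑} {o : M.J} {k : Type} [Field k] [Algebra ℂ k] {B : GA ℚ_[p] k} {P : Pl (KK 3) k}
  {h : (AK p).Cpt B P} (s : 𝓑.Fc o h)

theorem cov1 : Cov (fun x => (s.g x).b) (x1 h) := by
  classical
  obtain ⟨a, ha⟩ := hM.ne o
  obtain ⟨T, hT⟩ := Cht.chart_fg hM a
  obtain ⟨Y, h0, hY⟩ := gr_gen B (T.image P.π)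
  refine ⟨Y, h0, fun x h1 h2 => ?_⟩
  obtain ⟨b, t, ht, -, k⟩ := 𝓑.core hM hB hS (Gr.up h (gr x)) (a := a) (hT ▸ Algebra.adjoin_le
    (up_le (fun g hg => s.po ▸ (hM.dv a o ha).1 g (hT ▸ Algebra.subset_adjoin hg))
      fun g hg => hY x h1 _ (Finset.mem_image_of_mem _ hg))) fun l c e =>
    ⟨_, (h2 _ ⟨l, rfl⟩).2, (gr_n (g := pf h (tK p l))
      ((coe_pf h (g := tK p l) (Gr.n_up e).1).symm ▸ (Gr.n_up e).2)).2.symm⟩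
  obtain ⟨i, hi, h0⟩ := (𝓑.on b t ht o).1 fun g hg => s.po ▸ (Gr.n_up (k g hg)).1
  exact ⟨⟨(b, i), hi⟩, _, rem_bl ht i, CBox.le_of (rem_bl ht i) ((s.fc ⟨(b, i), hi⟩).gr ht h0 k)⟩

theorem cov2 {κ : Type} [Field κ] [Algebra ℂ κ] {E : GA ℚ_[p] κ} {R : Pl k κ} (h2 : B.Cpt E R)
    (c : s.F2 R.o → CBox E 1) (hc : ∀ x, CFace (s.g x.1.1) h2 x.1.2 (c x)) (x₀ : s.F2 R.o) :
    Cov (fun x : {x : s.F2 R.o // s.lb x.1 = s.lb x₀.1} => (c x.1).b) (x2 h h2) := by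
  classical
  have F₀ := hc x₀
  obtain ⟨⟨⟨⟨b₀, i₀⟩, l₀⟩, m₀⟩, n₀, on₀⟩ := x₀
  obtain ⟨o', ho'⟩ := Option.ne_none_iff_exists'.1 n₀
  have G₀ := s.fc ⟨(b₀, i₀), l₀⟩
  obtain ⟨a, ha⟩ := 𝓑.pt b₀
  obtain ⟨T, hT⟩ := Cht.chart_fg hM a
  have a0 := ha 0 zero_Bl
  have z1 : ∀ u ∈ ((𝓑.c b₀).Q 0).O, u ∈ P.o.F 0 ∧ P.π u ∈ R.o.F 0 := fun u hu =>
    ⟨(G₀.mem zero_Bl rfl hu).1, (F₀.mem (rem_bl zero_Bl i₀) rfl (G₀.mem zero_Bl rfl hu).2).1⟩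
  have e0 := (RSurf.on_iff hM hB a0 o').1 ((𝓑.on b₀ 0 zero_Bl o').2 ⟨_, ho', rfl⟩)
  have hη := hB.η_mem a o'
  obtain ⟨d1, d2, d3⟩ := hM.dv a o' fun e => by
    have := ((𝓑.c b₀).Q 0).ev_mul _ (a0.le hη) _ (a0.le e)
    rw [mul_inv_cancel₀ (Units.ne_zero _), RS.Loc.ev_one, e0, zero_mul] at this
    exact one_ne_zero this
  have η1 : P.π (M.η a o') ∈ R.o.F 1 := by
    have k1 := (𝓑.dat b₀ _ o' ho' 0 zero_Bl rfl).div _ (a0.le hη) (Or.inr d2.ge)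
    have k2 := (𝓑.dat b₀ _ o' ho' 0 zero_Bl rfl).adp
    rw [sh_zero] at k1
    have k3 := ((𝓑.c b₀).rg 0 zero_Bl).st.z (i₀.succAbove m₀)
    rw [sh_zero] at k3
    rw [← div_mul_cancel₀ (M.η a o') ((𝓑.c b₀).C.ne (i₀.succAbove m₀)),
      P.mul _ (z1 _ k1).1 _ (z1 _ k3).1, ← G₀.rc m₀]
    exact F_mul0 (z1 _ k1).2 (Or.inr on₀.at.vz.ge)
  obtain ⟨Y, h0, hY⟩ := gr_gen E (T.image fun g => R.π (P.π g))
  refine ⟨Y, h0, fun x h1 h3 => ?_⟩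
  have zT := fun g (hg : g ∈ T) => z1 g (a0.le (hT ▸ Algebra.subset_adjoin hg))
  obtain ⟨b, t, ht, lq, k⟩ := 𝓑.core hM hB hS (Gr.up h (Gr.up h2 (gr x))) (a := a)
    (hT ▸ Algebra.adjoin_le fun g hg => (hY x h1 _ (Finset.mem_image_of_mem _ hg)).imp fun _ e =>
      Gr.e_up.2 ⟨(zT g hg).1, Gr.e_up.2 ⟨(zT g hg).2, e⟩⟩) fun l c e => by
    have e1 := Gr.n_up e
    rw [show P.π ((tK p l : KK 3)) = pf h (tK p l) from (coe_pf h (g := tK p l) e1.1).symm] at e1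
    have e2 := Gr.n_up e1.2
    rw [← coe_pf h2 e2.1] at e2
    exact ⟨_, (h3 _ ⟨l, rfl⟩).2, (gr_n e2.2).2.symm⟩
  obtain ⟨i, hi, t0⟩ := (𝓑.on b t ht o).1 fun g hg => s.po ▸ (Gr.n_up (k g hg)).1
  obtain ⟨i', hi', t0'⟩ := (𝓑.on b t ht o').1 ((RSurf.on_iff hM hB lq o').2 (by
    obtain ⟨q, d, -, q2, q3⟩ := (Gr.n_up (Gr.n_up (k _ (lq.le hη))).2).2
    rw [R.π_F1 η1, zero_mul] at q3
    exact (mul_eq_zero.1 (q3.uniq (by simpa using (gr x).e_cst 0))).resolve_right q2))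
  obtain ⟨m, rfl⟩ := Fin.exists_succAbove_eq (x := i') (y := i) fun e => by
    obtain rfl : o = o' := Option.some.inj (hi.symm.trans (e ▸ hi'))
    exact Fin.succAbove_ne _ _ (𝓑.inj b₀ _ _ _ ho' l₀)
  have G := s.fc ⟨(b, i), hi⟩
  have k1 := G.gr ht t0 k
  have t1 := rem_bl ht i
  obtain ⟨G', -, hG'⟩ := 𝓑.crv b i m (by simp [hi]) (by simp [hi']) _ B P h _ G
  have le : Le ((s.g ⟨(b, i), hi⟩).Q (i.removeNth t)) R.o.O := fun y hy => (Gr.n_up (k1 y hy)).1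
  have rg := (s.g ⟨(b, i), hi⟩).rg _ t1
  have zm : (sh (s.g ⟨(b, i), hi⟩).C (up (i.removeNth t))).z m ∈ R.o.F 1 := by
    have k2 := ((𝓑.c b).rg t ht).st.z (i.succAbove m)
    have k3 := (𝓑.dat b _ o' hi' t ht t0').adp.vz
    rw [sh_z _ t0'] at k2 k3
    obtain ⟨u, u1, q, q1, q2, e⟩ := lq.frac _ k2
    have k4 := mul_mem (lq.le (d3 u u1 (e ▸ F_mul0' (Or.inr k3.ge) (d1 q q1))))
      (((𝓑.c b).Q t).inv_mem q (lq.le q1) q2)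
    rw [sh_z _ (show i.removeNth t m = 0 from t0'), G.rc m, show (𝓑.c b).C.z (i.succAbove m) =
      u * (M.η a o')⁻¹ * q⁻¹ * M.η a o' by
        rw [← e]
        field_simp [RS.Loc.ne_zero_of_ev q2],
      P.mul _ (G.mem ht t0 k4).1 _ (G.mem ht t0 (lq.le hη)).1]
    exact F_mul0 (le _ (G.mem ht t0 k4).2) η1
  have nd : ¬Dm ((s.g ⟨(b, i), hi⟩).Q (i.removeNth t)) R.o.O := fun D => by
    have cs : ∀ u ∈ M.S.A a, ∃ r, R.π (P.π u) = algebraMap ℂ κ r := fun u hu => by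
      have k2 := (G.mem ht t0 (lq.le hu)).2
      have k3 := sub_mem k2 (Subalgebra.algebraMap_mem _
        (((s.g ⟨(b, i), hi⟩).Q (i.removeNth t)).ev (P.π u)))
      have k4 := R.π_F1 (f1_of (le _ k3) (D.2 _ k3 (by
        rw [RS.Loc.ev_sub k2 (Subalgebra.algebraMap_mem _ _), Loc.ev_alg, sub_self])))
      rw [Pl.π_sub (le _ k2) (R.cst _).1, R.π_cst, sub_eq_zero] at k4
      exact ⟨_, k4⟩
    have k3 := ((𝓑.c b₀).rg 0 zero_Bl).st.z (i₀.succAbove (m₀.succAbove 0))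
    rw [sh_zero] at k3
    obtain ⟨u, u1, q, q1, q2, e⟩ := a0.frac _ k3
    obtain ⟨r, hr⟩ := cs u u1
    obtain ⟨r', hr'⟩ := cs q q1
    have k4 := a0.le q1
    have k5 := ((𝓑.c b₀).Q 0).inv_mem q k4 q2
    have k6 := R.mul _ (z1 _ k4).2 _ (z1 _ k5).2
    rw [← P.mul _ (z1 _ k4).1 _ (z1 _ k5).1, mul_inv_cancel₀ (RS.Loc.ne_zero_of_ev q2), P.π_one,
      R.π_one, hr'] at k6
    rw [← e, P.mul _ (z1 _ k3).1 _ (z1 _ k4).1, R.mul _ (z1 _ k3).2 _ (z1 _ k4).2, hr', ← G₀.rc,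
      ← F₀.rc] at hr
    have k7 := congrArg ((c ⟨_, n₀, on₀⟩).C.D 0) hr
    rw [Derivation.leibniz, Derivation.map_algebraMap, Derivation.map_algebraMap, Co.dual] at k7
    rw [show algebraMap ℂ κ r' = 0 by simpa using k7, zero_mul] at k6
    exact one_ne_zero k6
  have vm := zm.resolve_left (Co.ne _ m)
  obtain rfl : R.o = G' := by
    rcases (rCrv _ _ _ R.o rg ⟨⟨_, on₀.at.vz⟩, le, nd⟩).2.2 with ⟨j, hj⟩ | hj
    · obtain rfl : m = j := by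
        by_contra e
        rw [hj.adp.v, if_neg e] at vm
        omega
      exact (rFl _ _ _ m rg).2.1 _ _ hj (hG' _ t1 t0')
    · rw [hj.1 m] at vm
      omega
  have n1 : s.lb (⟨(b, i), hi⟩, m) = some o' := hi'
  have n2 : s.lb (⟨(b, i), hi⟩, m) ≠ none := by simp [n1]
  exact ⟨⟨⟨(⟨(b, i), hi⟩, m), n2, hG'⟩, n1.trans ho'.symm⟩, _, rem_bl t1 m,
    CBox.le_of (rem_bl t1 m) ((hc ⟨(⟨(b, i), hi⟩, m), n2, hG'⟩).gr t1 t0' k1)⟩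

end Pool.Agent.MP_ee8c61_ag.N3.BK.P3D
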