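import Pool.Agent.MP_5d9b3c_ag.P3X.Up
import Pool.Agent.MP_5d9b3c_ag.P3X.Face
import Pool.Agent.MP_5d9b3c_ag.P3K.Sub
import Pool.Agent.MP_5d9b3c_ag.O3X.FamD
import Pool.Agent.MP_ee8c61_ag.N3BK.RUp
import Pool.Agent.MP_ee8c61_ag.N3BK.RSurfA

/-! Dominating families on whose faces given functions are monomial. -/

namespace Pool.Agent.MP_ee8c61_ag.N3.BK.P3D

open Pool.Agent.MP_5d9b3c_ag Pool.Agent.MP_5d9b3c_ag.P3D

export Pool.Agent.MP_5d9b3c_ag.P3D (AK CBox coe_pf fix_le pf plc sh sh_z up)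

set_option linter.unusedSectionVars false

variable [Base]

open M3 M3RESID M3BK P3 P3K P3T Set
open Pool.Agent.MP_96693b_ag.RS (Loc)
open Pool.Agent.MP_96693b_ag

namespace XUp

open Pool.Agent.MP_5d9b3c_ag.P3D.XUp

section Cx

variable {f₀ : Po 3} {M : Mod 3} {a : M.ι} {Q : Loc (KK 3)} {C : Co (KK 3) 3} {g h : KK 3}

/-- A coordinate that defines a divisor is its equation up to a unit. -/
theorem z_eta (hM : M.OK f₀) (B : M3E.Bas f₀ M) (hQ : RS.LocOf (M.S.A a) Q) (hC : Rg C Q)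
    {j : M.J} {i : Fin 3} (hd : C.Dat Q.O (M.v j) i) {V : Vl 3} (hV : Le Q V) :
    Un V (M.η a j / C.z i) := by
  have h1 : M.In a (M.v j).O := fun g hg => hd.le g (hQ.le hg)
  obtain ⟨-, h2, -⟩ := B.in_v a _ j h1 ((B.thru_v j j).2 rfl)
  obtain ⟨-, h3, h4⟩ := hM.dv a j h2
  obtain ⟨s, hs, q, hq, h6, h7⟩ := hQ.frac _ (hC.st.z i)
  have h8 : s ∈ (M.v j).F 1 := by
    simpa [h7] using (M.v j).F_mul (Or.inr hd.adp.vz.ge : C.z i ∈ (M.v j).F 1)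
      (h1 q hq : q ∈ (M.v j).F 0)
  refine ⟨div_ne_zero (M.η_ne a j) (C.ne i), hV _ (hd.div _ (hQ.le (B.η_mem a j)) (Or.inr h3.ge)),
    hV _ ?_⟩
  have h9 := RS.Loc.ne_zero_of_ev h6
  rw [show (M.η a j / C.z i)⁻¹ = s * (M.η a j)⁻¹ * q⁻¹ by rw [← h7]; field_simp]
  exact mul_mem (hQ.le (h4 s hs h8)) (Q.inv_mem q (hQ.le hq) h6)

theorem mn_of_gen (B : M3E.Bas f₀ M) (hQ : RS.LocOf (M.S.A a) Q) (hη : ∀ j, Mn Q C (M.η a j))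
    {c : M.J → ℤ} (H : ∀ V, Le Q V → M.Gen V c g) : Mn Q C g := by
  have h1 : Mn Q C (M.mon a (-c)) := by
    rw [M.mon_eq]
    exact Finset.prod_induction _ _ (fun _ _ => Mn.mul) (Mn.un fun _ _ => un_one)
      fun j _ => (hη j).zpow _
  have := (Mn.un fun V hV => H V hV a fun s hs => hV s (hQ.le hs)).mul h1
  rwa [B.mon_neg, mul_inv_cancel_right₀ (M.mon_ne a c)] at this

end Cx

variable {p : ℕ} [Fact p.Prime] [Algebra ℚ_[p] ℂ] [Rgn p] [Algebra.IsAlgebraic ℚ_[p] ℂ]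
  {f₀ : Po 3} {M W : Mod 3} {c : CBox (AK p) 3} {t : Fin 3 → ℚ_[p]}

/-- The box is adapted to the divisors at the point `t`. -/
def Adt (M : Mod 3) (c : CBox (AK p) 3) (t : Fin 3 → ℚ_[p]) : Prop :=
  c.Q t ∈ M.pts ∧ ∀ j, M.On (c.Q t) j → ∃ i, (sh c.C (up t)).Dat (c.Q t).O (M.v j) i

omit [Algebra.IsAlgebraic ℚ_[p] ℂ] in
/-- A local generator of a divisor is a monomial on small balls. -/
theorem ev_gen (hE : M3E.EOut) (hM : M.OK f₀) (ht : t ∈ Bl p 3) (H : Adt M c t) {g : (AK p).fix}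
    {d : M.J → ℤ} (hg : ∀ V, Le (c.Q t) V → M.Gen V d g) :
    c.b.Ev t fun b => ∃ m A, b.Mono g m A := by
  have B := hE.bas 3 f₀ M hM
  have hN := hE.nb 3 f₀ M hM
  obtain ⟨⟨a, ha⟩, H⟩ := H
  obtain ⟨A, hA⟩ := mn_of_gen (C := sh c.C (up t)) B ha (fun j => by
    by_cases hj : M.On (c.Q t) j
    · obtain ⟨i, hi⟩ := H j hj
      exact ⟨Pi.single i 1, fun V hV => by
        rw [Co.mon_single, zpow_one]
        exact z_eta hM B ha (c.rg t ht) hi hV⟩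
    · exact Mn.un fun V hV => RUp.un_of hV fun e => hj (RUp.on_of B hN ha e)) hg
  refine (Box.ev_mono (A := A) ht fun e => ?_).mono fun _ _ _ ⟨m, h⟩ => ⟨m, A, h⟩
  have h1 := c.ev t ht (g / ∏ l, (c.b.z l - algebraMap ℚ_[p] _ (t l)) ^ A l)
  rw [e, map_zero] at h1
  refine RUp.unit hN ha (hA ⊤ fun _ _ => ValuationSubring.mem_top _).1 hA
    (Eq.trans (congrArg _ ?_) h1.symm)
  change _ = (AK p).fix.subtype (g / ∏ l, (c.b.z l - algebraMap ℚ_[p] _ (t l)) ^ A l)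
  rw [map_div₀, map_prod]
  refine congrArg _ (Finset.prod_congr rfl fun l _ => ?_)
  rw [map_zpow₀, map_sub]
  exact congrArg (fun x => (x - _) ^ A l) (c.z l).symm

theorem stp {U : Set (Subalgebra ℂ (KK 3))} (h : StM ℚ_[p] f₀ U M) : Stp p M := fun σ Q hQ => by
  obtain ⟨w, hw, hQ⟩ := (h.pts Q).1 hQ
  have h2 : ((AK p).si σ).sa w = w :=
    SetLike.ext (((AK p).si σ).all.2 fun g =>
      ((AK p).si σ).e_mem_sa.trans ((h.stb w hw).iff σ).symm)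
  exact (h.pts _).2 ⟨w, hw, h2 ▸ ((AK p).si σ).locOf hQ⟩

variable {f : (AK p).fix}

/-- A fixed integral point dominates a point of the family. -/
theorem below (hE : M3E.EOut) (hM : M.OK f₀) (hW : W.OK f₀) (D : Dom W M) (hS : Stp p M)
    (𝓑 : Fam M f) (ht : t ∈ Bl p 3) (hQ : c.Q t ∈ W.pts)
    (hi : ∀ l, tK p l ∈ (c.b.Φ t).O ∧ ‖(c.b.Φ t).ev (tK p l)‖ ≤ 1) :
    ∃ β, ∃ s ∈ Bl p 3, ((𝓑.c β).Q s).O ≤ (c.Q t).O := by
  obtain ⟨a', ha'⟩ := hQ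
  obtain ⟨V, h3, h4⟩ := RUp.dom (hE.nb 3 f₀ W hW) ha'
  obtain ⟨a, ha⟩ := D.loc a' V h3
  obtain ⟨Q, hQ, hle⟩ := RS.exists_locOf_le (L := c.Q t) (RUp.fg hM a) fun g hg => by
    obtain ⟨s, hs, h5, h6⟩ := ha g hg
    rw [← inv_mul_cancel_left₀ h5.1 g]
    exact mul_mem ((c.Q t).inv_mem s (ha'.le hs) ((h4 s hs).1 h5)) (ha'.le h6)
  obtain ⟨V', hV'⟩ := RSurf.exists_dm (c.Q t)
  have h5 : Dm Q V' := ⟨fun g hg => hV'.1 g (hle hg), fun g hg e =>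
    hV'.2 g (hle hg) ((RS.Loc.ev_eq_of_le hle hg).trans e)⟩
  obtain ⟨β, s, hs, e⟩ := 𝓑.all Q ⟨a, hQ⟩ (fun σ => (RSurf.sep (hE.bas 3 f₀ M hM) ⟨a, hQ⟩
    (hS σ Q ⟨a, hQ⟩) h5 (((AK p).si σ).all.2 fun g hg => hV'.1 _
      (((c.fx t ht).mem σ).2 (hle (((AK p).si σ).e_mem_sa.1 hg))))).symm) fun l =>
    ⟨_, (hi l).2, (RS.Loc.ev_eq_of_le hle (hQ.le (tK_mem hM a l))).symm.trans
      (c.ev t ht (tK p l)).symm⟩
  exact ⟨β, s, hs, e ▸ hle⟩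

/-- The box lies over a box of the family, whose labelled coordinates are monomials. -/
def Q1 (𝓑 : Fam M f) (b : Box p (AK p).fix 3) : Prop :=
  ∃ β, b.Over (𝓑.c β).b ∧ ∀ i, 𝓑.lab β i ≠ none → ∃ m A, b.Mono ((𝓑.c β).b.z i) m A

theorem ev_q1 (hE : M3E.EOut) (hM : M.OK f₀) (hW : W.OK f₀) (D : Dom W M) (hS : Stp p M)
    (𝓑 : Fam M f) (ht : t ∈ Bl p 3) (H : Adt W c t)
    (hi : ∀ l, tK p l ∈ (c.b.Φ t).O ∧ ‖(c.b.Φ t).ev (tK p l)‖ ≤ 1) : c.b.Ev t (Q1 𝓑) := by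
  obtain ⟨β, s, hs, hle⟩ := below hE hM hW D hS 𝓑 ht H.1 hi
  have B := hE.bas 3 f₀ M hM
  obtain ⟨a, ha⟩ := 𝓑.pt β
  have key : ∀ i, c.b.Ev t fun b => 𝓑.lab β i ≠ none → ∃ m A, b.Mono ((𝓑.c β).b.z i) m A := by
    intro i
    rcases hj : 𝓑.lab β i with _ | j
    · exact ⟨0, fun _ _ _ _ h => absurd rfl h⟩
    obtain ⟨d, hd⟩ : ∃ d, ∀ V, Le ((𝓑.c β).Q s) V → M.Gen V d ((𝓑.c β).b.z i) := by
      by_cases h0 : s i = 0
      · refine ⟨(-1 : ℤ) • M.e j, fun V hV =>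
          (B.gen_iff a V _ _ fun g hg => hV g ((ha s hs).le hg)).2 ?_⟩
        have := (z_eta hM B (ha s hs) ((𝓑.c β).rg s hs) (𝓑.dat β i j hj s hs h0) hV).inv
        rwa [sh_z _ h0, inv_div, div_eq_mul_inv, ← zpow_neg_one, ← B.mon_e, ← (𝓑.c β).z] at this
      · refine ⟨0, fun V hV => (B.gen_iff a V _ _ fun g hg => hV g ((ha s hs).le hg)).2 ?_⟩
        rw [B.mon_zero, mul_one]
        refine RUp.un_of hV ?_
        rw [← (𝓑.c β).ev s hs, (𝓑.c β).b.sec s hs]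
        exact (map_ne_zero _).2 h0
    exact (ev_gen hE hW ht H fun V hV => ((hE.dc 3 f₀ W M D hW hM).gen V d _ fun q =>
      hV _ (hle ((ha s hs).le (hM.pol a q)))).1 (hd V fun g hg => hV g (hle hg))).mono
        fun _ _ _ h _ => h
  exact ((Box.ev_over ht hs fun g hg => (c.O t ht g).2 (hle (((𝓑.c β).O s hs g).1 hg))).and
    (Box.Ev.all key)).mono fun _ _ _ h => ⟨β, h⟩

variable {k : Type} [Field k] [Algebra ℂ k] {B : GA ℚ_[p] k} {P : Pl (KK 3) k}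

theorem ev_q2 (hE : M3E.EOut) (hW : W.OK f₀) (h : (AK p).Cpt B P) (ht : t ∈ Bl p 3)
    (H : Adt W c t) {g : (AK p).fix} {x y F : KK 3} (hg : (g : KK 3) = x / y) (hx : x ≠ 0)
    (hy : y ≠ 0) (hF : F ≠ 0) (h1 : P.o.v x = P.o.v y) (h2 : P.o.v x < P.o.v F)
    {T : Fin 3 → Finset (KK 3)} {d : Fin 3 → W.J → ℤ} (hd : ∀ i, W.Gens (d i) (T i))
    (h3 : (T 0 : Set (KK 3)) = {F, x}) (h4 : (T 1 : Set (KK 3)) = {F, y})
    (h5 : (T 2 : Set (KK 3)) = {F, x, y}) : c.b.Ev t (Q2 h g) := by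
  by_cases ho : ∀ u ∈ (c.Q t).O, u ∈ P.o.F 0
  swap
  · refine ⟨0, fun e _ b hb i hi => absurd (fix_le (O := VA P.o.O fun z => (P.cst z).1)
      (c.fx t ht) fun u hu hf => ?_) ho⟩
    have h6 := (hi 0 zero_Bl rfl).le
    rw [hb.Φ 0 zero_Bl, smul_zero, add_zero] at h6
    exact h6 ((c.O t ht ⟨u, hf⟩).2 hu)
  have B' := hE.bas 3 f₀ W hW
  have hN := hE.nb 3 f₀ W hW
  have hf : ∀ u, u ≠ 0 → P.o.v u = P.o.v x → u / F ∉ (c.Q t).O := fun u h0 e hu => by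
    have := (ho _ hu).resolve_left (div_ne_zero h0 hF)
    rw [P.o.div h0 hF] at this
    omega
  have m : ∀ {i u} {S : Set (KK 3)}, (T i : Set (KK 3)) = S → (u ∈ T i ↔ u ∈ S) :=
    fun e => e ▸ Finset.mem_coe.symm
  obtain ⟨u, hu, -, a1, a2⟩ := RUp.gens B' hN H.1 (hd 0)
  obtain ⟨u', hu', -, a3, a4⟩ := RUp.gens B' hN H.1 (hd 1)
  obtain ⟨w, hw, -, -, a5⟩ := RUp.gens B' hN H.1 (hd 2)
  obtain rfl : u = x := ((m h3).1 hu).resolve_left fun e =>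
    hf x hx rfl (e ▸ a2 x ((m h3).2 (by simp)))
  obtain rfl : u' = y := ((m h4).1 hu').resolve_left fun e =>
    hf y hy h1.symm (e ▸ a4 y ((m h4).2 (by simp)))
  have a6 := a5 u ((m h5).2 (by simp))
  have a7 := a5 u' ((m h5).2 (by simp))
  refine ((ev_gen hE hW ht H (d := d 0 + -d 1) fun V hV => ?_).and
    (?_ : c.b.Ev t fun b => b.Reg g ∨ b.Reg g⁻¹)).mono fun _ _ _ e _ _ => e
  · rw [hg, div_eq_mul_inv]
    exact B'.gen_mul V _ _ _ _ (a1 V hV) (B'.gen_inv V _ _ (a3 V hV))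
  rcases (m h5).1 hw with rfl | rfl | rfl
  · exact absurd a6 (hf u hx rfl)
  · exact (Box.ev_reg ht ((c.O t ht _).2 (by rwa [Subfield.coe_inv, hg, inv_div]))).mono
      fun _ _ _ => Or.inr
  · exact (Box.ev_reg ht ((c.O t ht _).2 (hg ▸ a6))).mono fun _ _ _ => Or.inl

/-- A fixed function on the divisor is a quotient of fixed polynomials. -/
theorem quot (h : (AK p).Cpt B P) {ψ : B.fix} (h0 : ψ ≠ 0) :
    ∃ (g : (AK p).fix) (x y : Po 3), (g : KK 3) ∈ P.o.F 0 ∧ pf h g = ψ ∧ FxP ℚ_[p] x ∧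
      FxP ℚ_[p] y ∧ (g : KK 3) = ip 3 x / ip 3 y ∧ ip 3 x ≠ 0 ∧ ip 3 y ≠ 0 ∧
      P.o.v (ip 3 x) = P.o.v (ip 3 y) := by
  obtain ⟨g, hg, e⟩ := (plc h).surj ψ
  obtain ⟨x, y, hy, h1⟩ := IsFractionRing.div_surjective (A := Po 3) (g : KK 3)
  obtain ⟨_, ⟨x, rfl⟩, _, ⟨y, rfl⟩, a1, a2, a3, a4⟩ := (AK p).frac (B := (ip 3).range)
    (fun σ _ hs => (mem_ip σ).2 hs) ⟨x, rfl⟩ ⟨y, rfl⟩
    (ip_ne (nonZeroDivisors.ne_zero hy)) (by exact h1 ▸ g.2)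
  have a5 : (g : KK 3) = ip 3 x / ip 3 y := h1.symm.trans a4
  have a6 := not_or.1 fun e' : (g : KK 3) ∈ P.o.F 1 =>
    h0 (e ▸ Subtype.ext ((coe_pf h hg).trans (P.π_F1 e')))
  have a7 := hg.resolve_left a6.1
  have a8 : ip 3 x ≠ 0 := (div_ne_zero_iff.1 (a5 ▸ a6.1)).1
  have a9 := a6.2
  rw [a5, P.o.div (h := ip 3 y) a8 a3] at a7 a9
  exact ⟨g, x, y, hg, e, a1, a2, a5, a8, a3, by omega⟩

end XUp

open XUp

variable (p : ℕ) [Fact p.Prime] [Algebra ℚ_[p] ℂ] [Rgn p] [Algebra.IsAlgebraic ℚ_[p] ℂ]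

/-- Families all of whose boxes have a property that holds for small balls. -/
def XFQ : Prop := ∀ (f₀ : Po 3) (f : (AK p).fix) (U : Set (Subalgebra ℂ (KK 3))) (M : Mod 3),
  FxP ℚ_[p] f₀ → (f : KK 3) = ip 3 f₀ → StM ℚ_[p] f₀ U M → ∀ Q : Box p (AK p).fix 3 → Prop,
  (∀ c : CBox (AK p) 3, ∀ t ∈ Bl p 3, Adt M c t →
    (∀ l, tK p l ∈ (c.b.Φ t).O ∧ ‖(c.b.Φ t).ev (tK p l)‖ ≤ 1) → c.b.Ev t Q) →
  ∃ 𝓑 : Fam M f, ∀ b, Q (𝓑.c b).b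

variable {p}

theorem xfq (h1 : XBOX p) (h2 : XCRV p) (h3 : XFAM p) : XFQ p := fun f₀ f U M hf he hM Q H =>
  h3 f₀ M f (fun c _ => Q c.b) hM.ok (stp hM) (h1 f₀ U M f hM hf he) fun c lab hc hi => by
    obtain ⟨e, a1⟩ := h2 f₀ M f c lab hM.ok hc
    obtain ⟨e', a2⟩ := H c 0 zero_Bl ⟨hc.pt.imp fun _ h => h 0 zero_Bl, fun j hj =>
      ((hc.on 0 zero_Bl j).1 hj).imp fun i h => hc.dat i j h.1 0 zero_Bl rfl⟩ (hi 0 zero_Bl)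
    exact ⟨max e e', fun e'' h c' hc' =>
      ⟨a1 e'' (le_of_max_le_left h) c' hc', a2 e'' (le_of_max_le_right h) _ hc'.sub⟩⟩

theorem up_of (hE : M3E.EOut) (h1 : SB1G) (h2 : XFQ p) {f₀ : Po 3} {f : (AK p).fix}
    {U : Set (Subalgebra ℂ (KK 3))} {M : Mod 3} (hf : FxP ℚ_[p] f₀) (he : (f : KK 3) = ip 3 f₀)
    (hM : StM ℚ_[p] f₀ U M) (𝓑 : Fam M f) : 𝓑.Up f₀ := by
  classical
  intro o k _ _ B P h T ho hT
  choose g x y a1 a2 a3 a4 a5 a6 a7 a8 using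
    fun ψ : T => P3D.XUp.quot h (ψ := ψ) fun e => hT (e ▸ ψ.2)
  have h8 := (((hE.bas 3 f₀ M hM.ok).gen_v o _ _).1 ((hE.bas 3 f₀ M hM.ok).gen_f _))
  have h9 : (1 : ℤ) ≤ M.a o := by exact_mod_cast hM.ok.pos o
  let r : T → ℕ := fun ψ => (P.o.v (ip 3 (x ψ))).toNat + 1
  have hr : ∀ ψ, P.o.v (ip 3 (x ψ)) < P.o.v (ip 3 (f₀ ^ r ψ)) := fun ψ => by
    rw [map_pow, DV.pow, ho, h8.2, Pi.neg_apply, neg_neg, ← ho]
    exact lt_of_lt_of_le (by simp only [r]; omega) (le_mul_of_one_le_right (by omega) h9)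
  let G : T × Fin 3 → Finset (Po 3) := fun i => insert (f₀ ^ r i.1)
    (![{x i.1}, {y i.1}, {x i.1, y i.1}] i.2)
  obtain ⟨U', W, hW, ⟨D⟩, hG⟩ := h1 ℚ_[p] 3 f₀ U M (T × Fin 3) G hf hM (fun i q hq => by
    obtain ⟨ψ, i⟩ := i
    rcases Finset.mem_insert.1 hq with rfl | hq
    · exact fun σ => by rw [map_pow, map_pow, hf σ]
    · fin_cases i <;> simp at hq <;> rcases hq with rfl | rfl <;>
        first | exact a3 ψ | exact a4 ψ) fun i => ⟨r i.1, Finset.mem_insert_self _ _⟩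
  choose d hd using hG
  obtain ⟨𝓦, H⟩ := h2 f₀ f U' W hf he hW (fun b => Q1 𝓑 b ∧ ∀ ψ, Q2 h (g ψ) b)
    fun c t ht H hi => (ev_q1 hE hM.ok hW.ok D (stp hM) 𝓑 ht H hi).and (Box.Ev.all fun ψ =>
      ev_q2 hE hW.ok h ht H (a5 ψ) (a6 ψ) (a7 ψ) (by rw [map_pow]; exact pow_ne_zero _ h8.1) (a8 ψ)
        (hr ψ) (fun i => hd (ψ, i) _ Finset.coe_image) (by simp [G])
        (by simp [G]) (by simp [G]))
  choose bx b1 b2 using fun β => (H β).1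
  refine ⟨W, D, 𝓦, bx, hW.ok, stp hW, b1, b2, fun β i e _ he ψ hψ => ?_⟩
  have := face he (a1 ⟨ψ, hψ⟩) (by rw [a2]; exact fun e => hT (e ▸ hψ)) ((H β).2 ⟨ψ, hψ⟩)
  rwa [a2] at this

/-- The family with its dominating families. -/
theorem hasFam (hE : M3E.EOut) (h1 : SB1G) (h2 : XFQ p) {f₀ : Po 3} {f : (AK p).fix}
    {U : Set (Subalgebra ℂ (KK 3))} {M : Mod 3} (hf : FxP ℚ_[p] f₀) (he : (f : KK 3) = ip 3 f₀)
    (hM : StM ℚ_[p] f₀ U M) : HasFam p f₀ f M :=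
  let ⟨𝓑, _⟩ := h2 f₀ f U M hf he hM (fun _ => True) fun _ _ _ _ _ => ⟨0, fun _ _ _ _ => trivial⟩
  ⟨stp hM, 𝓑, up_of hE h1 h2 hf he hM 𝓑⟩

theorem sbx_of (hE : M3E.EOut) (h0 : SB1G) (h1 : XBOX p) (h2 : XCRV p) (h3 : XFAM p) {f₀ : Po 3}
    {f : (AK p).fix} {U : Set (Subalgebra ℂ (KK 3))} {M : Mod 3} (hf : FxP ℚ_[p] f₀) (he : (f : KK 3) = ip 3 f₀)
    (hM : StM ℚ_[p] f₀ U M) : HasFam p f₀ f M := hasFam hE h0 (xfq h1 h2 h3) hf he hM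

end Pool.Agent.MP_ee8c61_ag.N3.BK.P3D
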